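import Pool.Agent.AKS.Surplus
import Pool.Agent.AK.Geo

set_option autoImplicit false

/-!
# The surplus identity in arbitrary frames
-/

namespace Pool.Agent.AKS

open Finset Classical Pool.Agent.AK Pool.Agent.MP_0af329_co

variable {ι : Type*}

/-- first coordinate of the frame with direction `(a, b)` -/
def fx (a b : ℝ) (x y : ι → ℝ) : ι → ℝ := fun i => a * x i + b * y i

/-- second coordinate of the frame with direction `(a, b)` -/
def fy (a b : ℝ) (x y : ι → ℝ) : ι → ℝ := fun i => a * y i - b * x i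

theorem cr_fr (a b : ℝ) (x y : ι → ℝ) (v p q : ι) :
    cr (fx a b x y) (fy a b x y) v p q = (a ^ 2 + b ^ 2) * cr x y v p q := by
  simp only [cr, fx, fy]
  ring

theorem dt_fr (a b : ℝ) (x y : ι → ℝ) (v p q : ι) :
    dt (fx a b x y) (fy a b x y) v p q = (a ^ 2 + b ^ 2) * dt x y v p q := by
  simp only [dt, fx, fy]
  ring

variable [Fintype ι]

theorem al_fr {a b : ℝ} (h : 0 < a ^ 2 + b ^ 2) (x y : ι → ℝ) :
    al (fx a b x y) (fy a b x y) = al x y := by
  funext v p
  unfold al
  congr 1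
  ext q
  simp only [mem_filter, mem_univ, true_and, cr_fr, dt_fr, mul_pos_iff_of_pos_left h]

theorem br_fr {a b : ℝ} (h : 0 < a ^ 2 + b ^ 2) (κ : ℕ) (x y : ι → ℝ) :
    br κ (fx a b x y) (fy a b x y) = br κ x y := by
  funext v
  unfold br
  rw [al_fr h]

theorem TA_fr {a b : ℝ} (h : 0 < a ^ 2 + b ^ 2) (x y : ι → ℝ) :
    TA (fx a b x y) (fy a b x y) = TA x y := by
  unfold TA
  ext t
  simp only [mem_filter, mem_univ, true_and, cr_fr, dt_fr, mul_pos_iff_of_pos_left h]

/-- the number of acute corners, the brackets and the surplus of any frame -/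
theorem acute_fr (κ : ℕ) (x y : ι → ℝ) {a b : ℝ} (h : 0 < a ^ 2 + b ^ 2)
    (hx : Function.Injective (fx a b x y)) (hy : Function.Injective (fy a b x y))
    (hg : ∀ v p q : ι, v ≠ p → p ≠ q → v ≠ q → cr x y v p q ≠ 0) :
    (#(TA x y) : ℤ) + ∑ v, (br κ x y v : ℤ) + DD κ (fx a b x y) (fy a b x y) =
      3 * (((Fintype.card ι - κ).choose 3 : ℕ) : ℤ) +
        (Fintype.card ι : ℤ) * ((Fintype.card ι : ℤ) - 1) * κ := by
  have h1 := acute_eq κ (fx a b x y) (fy a b x y) hx hy (fun v p q h1 h2 h3 => by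
    rw [cr_fr]
    exact mul_ne_zero h.ne' (hg v p q h1 h2 h3))
  rwa [br_fr h, TA_fr h] at h1

/-- the surplus is the same for all frames -/
theorem DD_fr (κ : ℕ) (x y : ι → ℝ) {a b a' b' : ℝ} (h : 0 < a ^ 2 + b ^ 2)
    (hx : Function.Injective (fx a b x y)) (hy : Function.Injective (fy a b x y))
    (h' : 0 < a' ^ 2 + b' ^ 2)
    (hx' : Function.Injective (fx a' b' x y)) (hy' : Function.Injective (fy a' b' x y))
    (hg : ∀ v p q : ι, v ≠ p → p ≠ q → v ≠ q → cr x y v p q ≠ 0) :
    DD κ (fx a b x y) (fy a b x y) = DD κ (fx a' b' x y) (fy a' b' x y) := by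
  have h1 := acute_fr κ x y h hx hy hg
  have h2 := acute_fr κ x y h' hx' hy' hg
  linarith

/-- all frames but finitely many are generic -/
theorem frame_dense (x y : ι → ℝ) (hxy : ∀ p q, x p = x q → y p = y q → p = q)
    (B : Finset ℝ) : ∃ B' : Finset ℝ, ∀ t : ℝ, t ∉ B' ∪ B →
      Function.Injective (fx 1 t x y) ∧ Function.Injective (fy 1 t x y) := by
  refine ⟨(univ : Finset (ι × ι)).image (fun p => -(x p.1 - x p.2) / (y p.1 - y p.2)) ∪
    (univ : Finset (ι × ι)).image (fun p => (y p.1 - y p.2) / (x p.1 - x p.2)), ?_⟩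
  intro t ht
  simp only [mem_union, mem_image, mem_univ, true_and, Prod.exists, not_or, not_exists] at ht
  obtain ⟨⟨h1, h2⟩, -⟩ := ht
  refine ⟨?_, ?_⟩
  · intro p q hpq
    simp only [fx, one_mul] at hpq
    by_cases hy : y p - y q = 0
    · refine hxy p q ?_ (sub_eq_zero.1 hy)
      rw [sub_eq_zero.1 hy] at hpq
      linarith
    · exfalso
      apply h1 p q
      rw [div_eq_iff hy]
      linarith
  · intro p q hpq
    simp only [fy, one_mul] at hpq
    by_cases hx : x p - x q = 0
    · refine hxy p q (sub_eq_zero.1 hx) ?_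
      rw [sub_eq_zero.1 hx] at hpq
      linarith
    · exfalso
      apply h2 p q
      rw [div_eq_iff hx]
      linarith

/-- the surplus identity for the number of non-acute angles of a point set, in any frame -/
theorem cnt_Ici_eq (S : Finset Pt) (hS : GenPos S) (κ : ℕ) {a b : ℝ} (h : 0 < a ^ 2 + b ^ 2)
    (hx : Function.Injective (fx a b (X S) (Y S)))
    (hy : Function.Injective (fy a b (X S) (Y S))) :
    (S.card : ℤ) * (S.card - 1) * (S.card - 2) + 2 * brk S κ +
        2 * DD κ (fx a b (X S) (Y S)) (fy a b (X S) (Y S)) =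
      cnt S (Set.Ici (Real.pi / 2)) + 6 * (((S.card - κ).choose 3 : ℕ) : ℤ) +
        2 * ((S.card : ℤ) * (S.card - 1) * κ) := by
  have h1 := acute_fr κ (X S) (Y S) h hx hy (gen S hS)
  have h2 := two_card_TR (X S) (Y S) (gen S hS)
  have h3 := card_TR (X S) (Y S)
  have h4 := card_TD (ι := S)
  have h5 := cnt_Ici S hS
  rw [Fintype.card_coe] at h1 h4
  rw [← h4, ← h2, h3, h5]
  unfold brk
  push_cast
  linarith

end Pool.Agent.AKS
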