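import Pool.Agent.AK.Count

set_option autoImplicit false

/-!
# The sum over all sets as a sum over bounding boxes
-/

namespace Pool.Agent.AKS

open Finset Classical Pool.Agent.AK

variable {ι : Type*}

/-- `l, b, r, t` are the leftmost, lowest, rightmost, highest ones of the four points -/
def Ext (x y : ι → ℝ) (l b r t : ι) : Prop :=
  (x l ≤ x b ∧ x l ≤ x r ∧ x l ≤ x t) ∧ (y b ≤ y l ∧ y b ≤ y r ∧ y b ≤ y t) ∧
  (x l ≤ x r ∧ x b ≤ x r ∧ x t ≤ x r) ∧ (y l ≤ y t ∧ y b ≤ y t ∧ y r ≤ y t)

/-- the points inside the box -/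
noncomputable def In [Fintype ι] (x y : ι → ℝ) (l b r t : ι) : Finset ι :=
  {q | x l < x q ∧ x q < x r ∧ y b < y q ∧ y q < y t}

/-- sum over sets of a function of the bounding box -/
theorem box_sum_eq [Fintype ι] [Nonempty ι] (κ : ℕ) (x y : ι → ℝ) (hx : Function.Injective x)
    (hy : Function.Injective y) (c : ι → ι → ι → ι → ℤ) :
    ∑ R : Finset ι with R.Nonempty,
      om κ (#R) * c (mn x R) (mn y R) (mn (-x) R) (mn (-y) R) =
    ∑ l, ∑ b, ∑ r, ∑ t, if Ext x y l b r t then
      (Df^[#({l, b, r, t} : Finset ι)] (gK κ)) (#(In x y l b r t)) * c l b r t else 0 := by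
  have hx' : Function.Injective (-x) := fun a b h => hx (neg_injective h)
  have hy' : Function.Injective (-y) := fun a b h => hy (neg_injective h)
  rw [← sum_fiberwise _ (fun R : Finset ι => (mn x R, mn y R, mn (-x) R, mn (-y) R)),
    Fintype.sum_prod_type]
  refine sum_congr rfl fun l _ => ?_
  rw [Fintype.sum_prod_type]
  refine sum_congr rfl fun b _ => ?_
  rw [Fintype.sum_prod_type]
  refine sum_congr rfl fun r _ => sum_congr rfl fun t _ => ?_
  by_cases hE : Ext x y l b r t
  swap
  · rw [if_neg hE, filter_eq_empty_iff.2, sum_empty]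
    intro R hR h
    apply hE
    have h0 := (mem_filter.1 hR).2
    simp only [Prod.mk.injEq] at h
    obtain ⟨g1, g2, g3, g4⟩ := h
    have m1 : l ∈ R := by rw [← g1]; exact mn_mem _ h0
    have m2 : b ∈ R := by rw [← g2]; exact mn_mem _ h0
    have m3 : r ∈ R := by rw [← g3]; exact mn_mem _ h0
    have m4 : t ∈ R := by rw [← g4]; exact mn_mem _ h0
    have k1 : ∀ q ∈ R, x l ≤ x q := fun q hq => by rw [← g1]; exact mn_le _ hq
    have k2 : ∀ q ∈ R, y b ≤ y q := fun q hq => by rw [← g2]; exact mn_le _ hq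
    have k3 : ∀ q ∈ R, x q ≤ x r := fun q hq => by
      have := mn_le (-x) hq
      rw [g3, Pi.neg_apply, Pi.neg_apply] at this
      linarith
    have k4 : ∀ q ∈ R, y q ≤ y t := fun q hq => by
      have := mn_le (-y) hq
      rw [g4, Pi.neg_apply, Pi.neg_apply] at this
      linarith
    exact ⟨⟨k1 b m2, k1 r m3, k1 t m4⟩, ⟨k2 l m1, k2 r m3, k2 t m4⟩,
      ⟨k3 l m1, k3 b m2, k3 t m4⟩, ⟨k4 l m1, k4 b m2, k4 r m3⟩⟩
  rw [if_pos hE]
  obtain ⟨⟨p1, p2, p3⟩, ⟨p4, p5, p6⟩, ⟨p7, p8, p9⟩, ⟨p10, p11, p12⟩⟩ := hE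
  set D : Finset ι := {l, b, r, t} with hD
  have hmF : ∀ q, q ∈ In x y l b r t ↔ x l < x q ∧ x q < x r ∧ y b < y q ∧ y q < y t := by
    intro q
    simp [In]
  have hmD : ∀ q, q ∈ D ↔ q = l ∨ q = b ∨ q = r ∨ q = t := by
    intro q
    simp [hD]
  have k1 : ∀ q ∈ D, q ≠ l → x l < x q := by
    intro q hq hne
    refine lt_of_le_of_ne ?_ (fun h => hne (hx h).symm)
    rcases (hmD q).1 hq with h | h | h | h <;> rw [h]
    · exact p1
    · exact p2
    · exact p3
  have k2 : ∀ q ∈ D, q ≠ b → y b < y q := by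
    intro q hq hne
    refine lt_of_le_of_ne ?_ (fun h => hne (hy h).symm)
    rcases (hmD q).1 hq with h | h | h | h <;> rw [h]
    · exact p4
    · exact p5
    · exact p6
  have k3 : ∀ q ∈ D, q ≠ r → x q < x r := by
    intro q hq hne
    refine lt_of_le_of_ne ?_ (fun h => hne (hx h))
    rcases (hmD q).1 hq with h | h | h | h <;> rw [h]
    · exact p7
    · exact p8
    · exact p9
  have k4 : ∀ q ∈ D, q ≠ t → y q < y t := by
    intro q hq hne
    refine lt_of_le_of_ne ?_ (fun h => hne (hy h))
    rcases (hmD q).1 hq with h | h | h | h <;> rw [h]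
    · exact p10
    · exact p11
    · exact p12
  have hdis : Disjoint D (In x y l b r t) := by
    rw [disjoint_left]
    intro q hq hq'
    obtain ⟨a1, a2, a3, a4⟩ := (hmF q).1 hq'
    rcases (hmD q).1 hq with h | h | h | h
    · rw [h] at a1; exact lt_irrefl _ a1
    · rw [h] at a3; exact lt_irrefl _ a3
    · rw [h] at a2; exact lt_irrefl _ a2
    · rw [h] at a4; exact lt_irrefl _ a4
  have hset : (({R : Finset ι | R.Nonempty} : Finset (Finset ι)).filter
      (fun R : Finset ι => (mn x R, mn y R, mn (-x) R, mn (-y) R) = (l, b, r, t))) =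
      ({R | D ⊆ R ∧ R ⊆ D ∪ In x y l b r t} : Finset (Finset ι)) := by
    ext R
    simp only [mem_filter, mem_univ, true_and, Prod.mk.injEq]
    constructor
    · rintro ⟨hR, e1, e2, e3, e4⟩
      refine ⟨?_, ?_⟩
      · intro q hq
        rcases (hmD q).1 hq with h | h | h | h
        · rw [h, ← e1]; exact mn_mem _ hR
        · rw [h, ← e2]; exact mn_mem _ hR
        · rw [h, ← e3]; exact mn_mem _ hR
        · rw [h, ← e4]; exact mn_mem _ hR
      · intro q hq
        rw [mem_union]
        by_cases hqD : q ∈ D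
        · exact Or.inl hqD
        · right
          rw [hmD] at hqD
          push Not at hqD
          obtain ⟨n1, n2, n3, n4⟩ := hqD
          rw [hmF]
          refine ⟨?_, ?_, ?_, ?_⟩
          · have := mn_lt hx hq (by rw [e1]; exact n1)
            rwa [e1] at this
          · have := mn_lt hx' hq (by rw [e3]; exact n3)
            rw [e3, Pi.neg_apply, Pi.neg_apply] at this
            linarith
          · have := mn_lt hy hq (by rw [e2]; exact n2)
            rwa [e2] at this
          · have := mn_lt hy' hq (by rw [e4]; exact n4)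
            rw [e4, Pi.neg_apply, Pi.neg_apply] at this
            linarith
    · rintro ⟨h1, h2⟩
      have hl : l ∈ R := h1 ((hmD l).2 (Or.inl rfl))
      have hb : b ∈ R := h1 ((hmD b).2 (Or.inr (Or.inl rfl)))
      have hr : r ∈ R := h1 ((hmD r).2 (Or.inr (Or.inr (Or.inl rfl))))
      have ht : t ∈ R := h1 ((hmD t).2 (Or.inr (Or.inr (Or.inr rfl))))
      refine ⟨⟨l, hl⟩, ?_, ?_, ?_, ?_⟩
      · apply mn_eq hx hl
        intro q hq hne
        rcases mem_union.1 (h2 hq) with h | h
        · exact k1 q h hne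
        · exact ((hmF q).1 h).1
      · apply mn_eq hy hb
        intro q hq hne
        rcases mem_union.1 (h2 hq) with h | h
        · exact k2 q h hne
        · exact ((hmF q).1 h).2.2.1
      · apply mn_eq hx' hr
        intro q hq hne
        rw [Pi.neg_apply, Pi.neg_apply]
        rcases mem_union.1 (h2 hq) with h | h
        · linarith [k3 q h hne]
        · linarith [((hmF q).1 h).2.1]
      · apply mn_eq hy' ht
        intro q hq hne
        rw [Pi.neg_apply, Pi.neg_apply]
        rcases mem_union.1 (h2 hq) with h | h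
        · linarith [k4 q h hne]
        · linarith [((hmF q).1 h).2.2.2]
  have hsum : ∑ R ∈ (({R : Finset ι | R.Nonempty} : Finset (Finset ι)).filter
      (fun R : Finset ι => (mn x R, mn y R, mn (-x) R, mn (-y) R) = (l, b, r, t))),
      om κ (#R) * c (mn x R) (mn y R) (mn (-x) R) (mn (-y) R) =
      (∑ R ∈ (({R : Finset ι | R.Nonempty} : Finset (Finset ι)).filter
        (fun R : Finset ι => (mn x R, mn y R, mn (-x) R, mn (-y) R) = (l, b, r, t))),
        om κ (#R)) * c l b r t := by
    rw [sum_mul]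
    apply sum_congr rfl
    intro R hR
    have h1 := (mem_filter.1 hR).2
    simp only [Prod.mk.injEq] at h1
    rw [h1.1, h1.2.1, h1.2.2.1, h1.2.2.2]
  rw [hsum, hset, lam_between κ D _ hdis]

end Pool.Agent.AKS
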