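import Pool.Agent.AKS.BoxE

set_option autoImplicit false

/-!
# The box identity
-/

namespace Pool.Agent.AKS

open Finset Classical Pool.Agent.AK

variable {ι : Type*}

/-- number of non-acute corners of a box -/
noncomputable def nc (x y : ι → ℝ) (l b r t : ι) : ℤ :=
  nbq x y l b r + nbq y (-x) b r t + nbq (-x) (-y) r t l + nbq (-y) x t l b

/-- four different points on the four sides -/
def B4 (x y : ι → ℝ) (l b r t : ι) : Prop :=
  x l < x b ∧ x l < x t ∧ x b < x r ∧ x t < x r ∧ y b < y l ∧ y b < y r ∧ y l < y t ∧ y r < y t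

/-- boxes with a point in the lower right corner and two further points `l` (left side) and
`t` (upper side) -/
def B3 (x y : ι → ℝ) (l c t : ι) : Prop :=
  x l < x t ∧ x t < x c ∧ y c < y l ∧ y l < y t

section

variable [Fintype ι]

/-- a term of `D1` -/
noncomputable def U4 (κ : ℕ) (x y : ι → ℝ) (l b r t : ι) : ℤ :=
  if B4 x y l b r t ∧ #(In x y l b r t) + 1 = κ then nc x y l b r t - 1 else 0

/-- a term of `D3` -/
noncomputable def U3 (κ : ℕ) (x y : ι → ℝ) (l c t : ι) : ℤ :=
  if B3 x y l c t ∧ κ ≤ #(In x y l c c t) ∧ (dt x y t l c ≤ 0 ∨ dt x y l c t ≤ 0) then 1 else 0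

/-- a term of `D2` -/
noncomputable def U2 (κ : ℕ) (x y : ι → ℝ) (p q : ι) : ℤ :=
  if x p < x q ∧ y p < y q then ((#(In x y p p q q) - κ : ℕ) : ℤ) else 0

/-- the weighted boxes -/
noncomputable def WW (κ : ℕ) (x y : ι → ℝ) (l b r t : ι) : ℤ :=
  if Ext x y l b r t then
      (Df^[#({l, b, r, t} : Finset ι)] (gK κ)) (#(In x y l b r t)) *
        (eqi r b + eqi t r + eqi l t + eqi b l + nc x y l b r t - 1) else 0

theorem In_rot (x y : ι → ℝ) (l b r t : ι) : In y (-x) b r t l = In x y l b r t := by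
  ext q
  simp only [In, mem_filter, mem_univ, true_and, Pi.neg_apply, neg_lt_neg_iff]
  tauto

omit [Fintype ι] in
theorem Ext_rot (x y : ι → ℝ) (l b r t : ι) : Ext y (-x) b r t l ↔ Ext x y l b r t := by
  simp only [Ext, Pi.neg_apply, neg_le_neg_iff]
  tauto

omit [Fintype ι] in
theorem nc_rot (x y : ι → ℝ) (l b r t : ι) : nc y (-x) b r t l = nc x y l b r t := by
  simp only [nc, neg_neg]
  ring

theorem WW_rot (κ : ℕ) (x y : ι → ℝ) (l b r t : ι) :
    WW κ y (-x) b r t l = WW κ x y l b r t := by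
  unfold WW
  rw [In_rot, nc_rot]
  have h1 : ({b, r, t, l} : Finset ι) = {l, b, r, t} := by
    ext q
    simp only [mem_insert, mem_singleton]
    tauto
  rw [h1]
  by_cases h : Ext x y l b r t
  · rw [if_pos h, if_pos ((Ext_rot x y l b r t).2 h)]
    ring
  · rw [if_neg h, if_neg (fun h' => h ((Ext_rot x y l b r t).1 h'))]

omit [Fintype ι] in
theorem eqi_ne {p q : ι} (h : p ≠ q) : eqi p q = 0 := by
  unfold eqi
  rw [if_neg h]

omit [Fintype ι] in
theorem eqi_self (p : ι) : eqi p p = 1 := by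
  unfold eqi
  rw [if_pos rfl]

theorem Df4 (κ k : ℕ) : (Df^[4] (gK κ)) k = if k + 1 = κ then 1 else 0 := by
  have h0 := Df_succ (gK κ) 3 k
  rw [Df3, Df3] at h0
  have h1 : (Df^[4] (gK κ)) k
      = (if κ ≤ k + 1 then (1 : ℤ) else 0) - (if κ ≤ k then (1 : ℤ) else 0) := by
    rw [h0]
    simp
  rw [h1]
  split_ifs <;> omega

/-- four different sides -/
theorem WW4 (κ : ℕ) {x y : ι → ℝ} (hx : Function.Injective x) (hy : Function.Injective y)
    {l b r t : ι} (h1 : l ≠ b) (h2 : b ≠ r) (h3 : r ≠ t) (h4 : t ≠ l) :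
    WW κ x y l b r t = U4 κ x y l b r t := by
  have hE : Ext x y l b r t ↔ B4 x y l b r t := by
    constructor
    · rintro ⟨⟨p1, p2, p3⟩, ⟨p4, p5, p6⟩, ⟨p7, p8, p9⟩, ⟨p10, p11, p12⟩⟩
      exact ⟨lt_of_le_of_ne p1 (fun h => h1 (hx h)), lt_of_le_of_ne p3 (fun h => h4 (hx h).symm),
        lt_of_le_of_ne p8 (fun h => h2 (hx h)), lt_of_le_of_ne p9 (fun h => h3 (hx h).symm),
        lt_of_le_of_ne p4 (fun h => h1 (hy h).symm), lt_of_le_of_ne p5 (fun h => h2 (hy h)),
        lt_of_le_of_ne p10 (fun h => h4 (hy h).symm), lt_of_le_of_ne p12 (fun h => h3 (hy h))⟩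
    · rintro ⟨p1, p2, p3, p4, p5, p6, p7, p8⟩
      exact ⟨⟨p1.le, (p1.trans p3).le, p2.le⟩, ⟨p5.le, p6.le, (p6.trans p8).le⟩,
        ⟨(p1.trans p3).le, p3.le, p4.le⟩, ⟨p7.le, (p5.trans p7).le, p8.le⟩⟩
  unfold WW U4
  by_cases h : B4 x y l b r t
  · rw [if_pos (hE.2 h)]
    have hlr : l ≠ r := by
      rintro rfl
      exact lt_irrefl _ (h.1.trans h.2.2.1)
    have hbt : b ≠ t := by
      rintro rfl
      exact lt_irrefl _ (h.2.2.2.2.2.1.trans h.2.2.2.2.2.2.2)
    have hc : #({l, b, r, t} : Finset ι) = 4 := by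
      rw [card_insert_of_notMem, card_insert_of_notMem, card_insert_of_notMem, card_singleton]
      · simpa using h3
      · simp only [mem_insert, mem_singleton]
        tauto
      · simp only [mem_insert, mem_singleton]
        rintro (h5 | h5 | h5)
        · exact h1 h5
        · exact hlr h5
        · exact h4 h5.symm
    rw [hc, Df4, eqi_ne h2.symm, eqi_ne h3.symm, eqi_ne h4.symm, eqi_ne h1.symm]
    by_cases hk : #(In x y l b r t) + 1 = κ
    · rw [if_pos hk, if_pos ⟨h, hk⟩]
      ring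
    · rw [if_neg hk, if_neg (fun h' => hk h'.2)]
      ring
  · rw [if_neg (fun h' => h (hE.1 h')), if_neg (fun h' => h h'.1)]

omit [Fintype ι] in
theorem dt_add (x y : ι → ℝ) (t l c : ι) :
    dt x y t l c + dt x y l c t = (x t - x l) ^ 2 + (y t - y l) ^ 2 := by
  simp only [dt]
  ring

/-- one point in the lower right corner -/
theorem WW3 (κ : ℕ) {x y : ι → ℝ} (hx : Function.Injective x) (hy : Function.Injective y)
    {l c t : ι} (h1 : l ≠ c) (h3 : c ≠ t) (h4 : t ≠ l) :
    WW κ x y l c c t = U3 κ x y l c t := by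
  have hE : Ext x y l c c t ↔ B3 x y l c t := by
    constructor
    · rintro ⟨⟨p1, p2, p3⟩, ⟨p4, p5, p6⟩, ⟨p7, p8, p9⟩, ⟨p10, p11, p12⟩⟩
      exact ⟨lt_of_le_of_ne p3 (fun h => h4 (hx h).symm), lt_of_le_of_ne p9 (fun h => h3 (hx h).symm),
        lt_of_le_of_ne p4 (fun h => h1 (hy h).symm), lt_of_le_of_ne p10 (fun h => h4 (hy h).symm)⟩
    · rintro ⟨p1, p2, p3, p4⟩
      exact ⟨⟨(p1.trans p2).le, (p1.trans p2).le, p1.le⟩, ⟨p3.le, le_rfl, (p3.trans p4).le⟩,
        ⟨(p1.trans p2).le, le_rfl, p2.le⟩, ⟨p4.le, (p3.trans p4).le, (p3.trans p4).le⟩⟩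
  unfold WW U3
  by_cases h : B3 x y l c t
  · rw [if_pos (hE.2 h)]
    have hc : #({l, c, c, t} : Finset ι) = 3 := by
      rw [insert_eq_of_mem (show c ∈ ({c, t} : Finset ι) by simp), card_insert_of_notMem,
        card_insert_of_notMem, card_singleton]
      · simpa using h3
      · simp only [mem_insert, mem_singleton]
        rintro (h5 | h5)
        · exact h1 h5
        · exact h4 h5.symm
    rw [hc, Df3, eqi_self, eqi_ne h3.symm, eqi_ne h4.symm, eqi_ne h1.symm]
    obtain ⟨p1, p2, p3, p4⟩ := h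
    have n1 : nbq x y l c c = 0 := by
      unfold nbq
      rw [if_neg]
      rintro ⟨-, h5, -⟩
      exact lt_irrefl _ h5
    have n2 : nbq y (-x) c c t = 0 := by
      unfold nbq
      rw [if_neg]
      rintro ⟨h5, -⟩
      exact lt_irrefl _ h5
    have n3 : nbq (-x) (-y) c t l = if dt x y t l c ≤ 0 then 1 else 0 := by
      unfold nbq
      apply if_congr _ rfl rfl
      simp only [Pi.neg_apply, neg_lt_neg_iff]
      have e : dt (-x) (-y) t l c = dt x y t l c := by
        simp only [dt, Pi.neg_apply]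
        ring
      rw [e]
      constructor
      · rintro ⟨-, -, -, -, h5⟩
        exact h5
      · intro h5
        exact ⟨p2, p1, p3.trans p4, p4, h5⟩
    have n4 : nbq (-y) x t l c = if dt x y l c t ≤ 0 then 1 else 0 := by
      unfold nbq
      apply if_congr _ rfl rfl
      simp only [Pi.neg_apply, neg_lt_neg_iff]
      have e : dt (-y) x l c t = dt x y l c t := by
        simp only [dt, Pi.neg_apply]
        ring
      rw [e]
      constructor
      · rintro ⟨-, -, -, -, h5⟩
        exact h5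
      · intro h5
        exact ⟨p4, p3, p1, p1.trans p2, h5⟩
    have n5 : nc x y l c c t = if dt x y t l c ≤ 0 ∨ dt x y l c t ≤ 0 then 1 else 0 := by
      unfold nc
      rw [n1, n2, n3, n4]
      have h6 := dt_add x y t l c
      have h7 : 0 < (x t - x l) ^ 2 := by
        have : 0 < x t - x l := by linarith
        positivity
      have h8 := sq_nonneg (y t - y l)
      by_cases h9 : dt x y t l c ≤ 0
      · have h10 : ¬ dt x y l c t ≤ 0 := by
          intro h10
          linarith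
        rw [if_pos h9, if_neg h10, if_pos (Or.inl h9)]
        ring
      · by_cases h10 : dt x y l c t ≤ 0
        · rw [if_neg h9, if_pos h10, if_pos (Or.inr h10)]
          ring
        · rw [if_neg h9, if_neg h10, if_neg (by tauto)]
          ring
    rw [n5]
    by_cases hk : κ ≤ #(In x y l c c t)
    · rw [if_pos hk]
      by_cases h9 : dt x y t l c ≤ 0 ∨ dt x y l c t ≤ 0
      · rw [if_pos h9, if_pos ⟨⟨p1, p2, p3, p4⟩, hk, h9⟩]
        ring
      · rw [if_neg h9, if_neg (fun h' => h9 h'.2.2)]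
        ring
    · simp only [hk, false_and, and_false, if_false, zero_mul]
  · rw [if_neg (fun h' => h (hE.1 h')), if_neg (fun h' => h h'.1)]

/-- two points in opposite corners -/
theorem WW2 (κ : ℕ) {x y : ι → ℝ} (hx : Function.Injective x) (hy : Function.Injective y)
    {p q : ι} (h1 : p ≠ q) :
    WW κ x y p p q q = U2 κ x y p q := by
  have hE : Ext x y p p q q ↔ (x p < x q ∧ y p < y q) := by
    constructor
    · rintro ⟨⟨p1, p2, p3⟩, ⟨p4, p5, p6⟩, ⟨p7, p8, p9⟩, ⟨p10, p11, p12⟩⟩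
      exact ⟨lt_of_le_of_ne p2 (fun h => h1 (hx h)), lt_of_le_of_ne p5 (fun h => h1 (hy h))⟩
    · rintro ⟨p1, p2⟩
      exact ⟨⟨le_rfl, p1.le, p1.le⟩, ⟨le_rfl, p2.le, p2.le⟩,
        ⟨p1.le, p1.le, le_rfl⟩, ⟨p2.le, p2.le, le_rfl⟩⟩
  unfold WW U2
  by_cases h : x p < x q ∧ y p < y q
  · rw [if_pos (hE.2 h), if_pos h]
    have hc : #({p, p, q, q} : Finset ι) = 2 := by
      rw [insert_eq_of_mem (show p ∈ ({p, q, q} : Finset ι) by simp), card_insert_of_notMem,
        insert_eq_of_mem (show q ∈ ({q} : Finset ι) by simp), card_singleton]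
      simpa using h1
    have n1 : nbq x y p p q = 0 := by
      unfold nbq
      rw [if_neg]
      rintro ⟨h5, -⟩
      exact lt_irrefl _ h5
    have n2 : nbq y (-x) p q q = 0 := by
      unfold nbq
      rw [if_neg]
      rintro ⟨-, h5, -⟩
      exact lt_irrefl _ h5
    have n3 : nbq (-x) (-y) q q p = 0 := by
      unfold nbq
      rw [if_neg]
      rintro ⟨h5, -⟩
      exact lt_irrefl _ h5
    have n4 : nbq (-y) x q p p = 0 := by
      unfold nbq
      rw [if_neg]
      rintro ⟨-, h5, -⟩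
      exact lt_irrefl _ h5
    rw [hc, Df2, eqi_self, eqi_self, eqi_ne h1, eqi_ne h1.symm, nc, n1, n2, n3, n4]
    ring
  · rw [if_neg (fun h' => h (hE.1 h')), if_neg h]

/-- three sides meet the same point: nothing -/
theorem WW1 (κ : ℕ) {x y : ι → ℝ} (hy : Function.Injective y)
    {l c : ι} : WW κ x y l c c c = 0 := by
  unfold WW
  by_cases h : Ext x y l c c c
  · rw [if_pos h]
    obtain ⟨-, ⟨p4, -, -⟩, -, ⟨p10, -, -⟩⟩ := h
    have e : l = c := hy (le_antisymm p10 p4)
    subst e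
    have hI : In x y l l l l = ∅ := by
      unfold In
      rw [filter_eq_empty_iff]
      rintro q - ⟨h1, h2, -⟩
      exact lt_irrefl _ (h1.trans h2)
    rw [hI]
    simp only [insert_eq_of_mem, mem_singleton, card_singleton, card_empty]
    rw [Df1]
    simp
  · rw [if_neg h]

end

end Pool.Agent.AKS
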