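import Pool.Agent.AKS.BoxF

set_option autoImplicit false

/-!
# The box identity, continued
-/

namespace Pool.Agent.AKS

open Finset Classical Pool.Agent.AK

variable {ι : Type*} [Fintype ι]

theorem U3_zero (κ : ℕ) (x y : ι → ℝ) {l c t : ι} (h : l = c ∨ c = t ∨ t = l) :
    U3 κ x y l c t = 0 := by
  unfold U3
  rw [if_neg]
  rintro ⟨⟨h1, h2, h3, h4⟩, -⟩
  rcases h with rfl | rfl | rfl
  · exact lt_irrefl _ h3
  · exact lt_irrefl _ h2
  · exact lt_irrefl _ h1

theorem U4_zero (κ : ℕ) (x y : ι → ℝ) {l b r t : ι} (h : l = b ∨ b = r ∨ r = t ∨ t = l) :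
    U4 κ x y l b r t = 0 := by
  unfold U4
  rw [if_neg]
  rintro ⟨⟨h1, h2, h3, h4, -⟩, -⟩
  rcases h with rfl | rfl | rfl | rfl
  · exact lt_irrefl _ h1
  · exact lt_irrefl _ h3
  · exact lt_irrefl _ h4
  · exact lt_irrefl _ h2

theorem U2_zero (κ : ℕ) (x y : ι → ℝ) (p : ι) : U2 κ x y p p = 0 := by
  unfold U2
  rw [if_neg]
  rintro ⟨h, -⟩
  exact lt_irrefl _ h

theorem WW_all (κ : ℕ) {x y : ι → ℝ} (hx : Function.Injective x) (hy : Function.Injective y)
    (l b r t : ι) :
    WW κ x y l b r t = U4 κ x y l b r t + (if b = r then U3 κ x y l b t else 0) +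
      (if r = t then U3 κ y (-x) b r l else 0) + (if t = l then U3 κ (-x) (-y) r t b else 0) +
      (if l = b then U3 κ (-y) x t l r else 0) +
      (if l = b then (if r = t then U2 κ x y l r else 0) else 0) +
      (if b = r then (if t = l then U2 κ y (-x) b l else 0) else 0) := by
  have hnx : Function.Injective (-x) := fun a b h => hx (neg_injective h)
  have hny : Function.Injective (-y) := fun a b h => hy (neg_injective h)
  have hr1 : ∀ l b r t : ι, WW κ x y l b r t = WW κ y (-x) b r t l :=
    fun l b r t => (WW_rot κ x y l b r t).symm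
  have hr2 : ∀ l b r t : ι, WW κ x y l b r t = WW κ (-x) (-y) r t l b :=
    fun l b r t => (hr1 l b r t).trans (WW_rot κ y (-x) b r t l).symm
  have hr3 : ∀ l b r t : ι, WW κ x y l b r t = WW κ (-y) x t l b r := by
    intro l b r t
    have := (hr2 l b r t).trans (WW_rot κ (-x) (-y) r t l b).symm
    rwa [neg_neg] at this
  by_cases h1 : b = r
  · subst h1
    by_cases h2 : b = t
    · subst h2
      rw [WW1 κ hy, U4_zero κ x y (Or.inr (Or.inl rfl))]
      by_cases h3 : b = l
      · subst h3
        simp [U3_zero, U2_zero]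
      · have h4 : ¬ l = b := fun h => h3 h.symm
        simp [U3_zero, h3, h4]
    · by_cases h3 : t = l
      · subst h3
        have h4 : ¬ t = b := fun h => h2 h.symm
        rw [hr1, WW2 κ hy hnx h2, U4_zero κ x y (Or.inr (Or.inl rfl))]
        simp [U3_zero, h2, h4]
      · by_cases h5 : l = b
        · subst h5
          have e : WW κ x y l l l t = 0 := by
            rw [hr3]
            exact WW1 κ hx
          rw [e, U4_zero κ x y (Or.inl rfl)]
          simp [U3_zero, h2, h3]
        · rw [WW3 κ hx hy h5 h2 h3, U4_zero κ x y (Or.inr (Or.inl rfl))]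
          simp [h2, h3, h5]
  · by_cases h2 : r = t
    · subst h2
      have h1' : ¬ r = b := fun h => h1 h.symm
      by_cases h3 : r = l
      · subst h3
        rw [hr1, WW1 κ hnx, U4_zero κ x y (Or.inr (Or.inr (Or.inl rfl)))]
        simp [U3_zero, h1, h1']
      · have h3' : ¬ l = r := fun h => h3 h.symm
        by_cases h5 : l = b
        · subst h5
          rw [WW2 κ hx hy h3', U4_zero κ x y (Or.inl rfl)]
          simp [U3_zero, h3, h3']
        · have h5' : ¬ b = l := fun h => h5 h.symm
          rw [hr1, WW3 κ hy hnx h1 h3 h5, U4_zero κ x y (Or.inr (Or.inr (Or.inl rfl)))]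
          simp [h1, h3, h5]
    · by_cases h3 : t = l
      · subst h3
        by_cases h5 : t = b
        · subst h5
          have e : WW κ x y t t r t = 0 := by
            rw [hr2]
            exact WW1 κ hny
          rw [e, U4_zero κ x y (Or.inl rfl)]
          simp [U3_zero, h1, h2]
        · rw [hr2, WW3 κ hnx hny h2 h5 h1, U4_zero κ x y (Or.inr (Or.inr (Or.inr rfl)))]
          simp [h1, h2, h5]
      · by_cases h5 : l = b
        · subst h5
          rw [hr3, WW3 κ hny hx h3 h1 h2, U4_zero κ x y (Or.inl rfl)]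
          simp [h1, h2, h3]
        · rw [WW4 κ hx hy h5 h1 h2 h3]
          simp [h1, h2, h3, h5]

/-- surplus of boxes with four different points on the sides -/
noncomputable def D1 (κ : ℕ) (x y : ι → ℝ) : ℤ := ∑ l, ∑ b, ∑ r, ∑ t, U4 κ x y l b r t

/-- surplus of boxes with two points in opposite corners, one orientation -/
noncomputable def D2 (κ : ℕ) (x y : ι → ℝ) : ℤ := ∑ p, ∑ q, U2 κ x y p q

/-- surplus of boxes with three points on the sides, one orientation -/
noncomputable def D3 (κ : ℕ) (x y : ι → ℝ) : ℤ := ∑ l, ∑ c, ∑ t, U3 κ x y l c t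

theorem sum_WW (κ : ℕ) {x y : ι → ℝ} (hx : Function.Injective x) (hy : Function.Injective y) :
    ∑ l, ∑ b, ∑ r, ∑ t, WW κ x y l b r t =
      D1 κ x y + (D2 κ x y + D2 κ y (-x)) +
        (D3 κ x y + D3 κ y (-x) + D3 κ (-x) (-y) + D3 κ (-y) x) := by
  have e1 : ∑ l : ι, ∑ b : ι, ∑ r : ι, ∑ t : ι, (if b = r then U3 κ x y l b t else 0) =
      D3 κ x y := by
    unfold D3
    refine sum_congr rfl fun l _ => sum_congr rfl fun b _ => ?_
    rw [sum_comm]
    refine sum_congr rfl fun t _ => ?_
    simp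
  have e2 : ∑ l : ι, ∑ b : ι, ∑ r : ι, ∑ t : ι, (if r = t then U3 κ y (-x) b r l else 0) =
      D3 κ y (-x) := by
    unfold D3
    rw [sum_comm]
    refine sum_congr rfl fun b _ => ?_
    rw [sum_comm]
    refine sum_congr rfl fun r _ => ?_
    refine sum_congr rfl fun l _ => ?_
    simp
  have e3 : ∑ l : ι, ∑ b : ι, ∑ r : ι, ∑ t : ι, (if t = l then U3 κ (-x) (-y) r t b else 0) =
      D3 κ (-x) (-y) := by
    unfold D3
    have f1 : ∀ l b r : ι, ∑ t : ι, (if t = l then U3 κ (-x) (-y) r t b else 0) =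
        U3 κ (-x) (-y) r l b := by
      intro l b r
      simp
    simp only [f1]
    rw [sum_congr rfl (fun l _ => sum_comm), sum_comm]
  have e4 : ∑ l : ι, ∑ b : ι, ∑ r : ι, ∑ t : ι, (if l = b then U3 κ (-y) x t l r else 0) =
      D3 κ (-y) x := by
    unfold D3
    have f1 : ∀ l : ι, ∑ b : ι, ∑ r : ι, ∑ t : ι, (if l = b then U3 κ (-y) x t l r else 0) =
        ∑ r : ι, ∑ t : ι, U3 κ (-y) x t l r := by
      intro l
      rw [sum_eq_single l]
      · simp
      · intro b _ hb
        simp [hb.symm]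
      · intro h
        exact absurd (mem_univ _) h
    simp only [f1]
    rw [sum_congr rfl (fun l _ => sum_comm), sum_comm]
  have e5 : ∑ l : ι, ∑ b : ι, ∑ r : ι, ∑ t : ι,
      (if l = b then (if r = t then U2 κ x y l r else 0) else 0) = D2 κ x y := by
    unfold D2
    refine sum_congr rfl fun l _ => ?_
    rw [sum_eq_single l]
    · simp
    · intro b _ hb
      simp [hb.symm]
    · intro h
      exact absurd (mem_univ _) h
  have e6 : ∑ l : ι, ∑ b : ι, ∑ r : ι, ∑ t : ι,
      (if b = r then (if t = l then U2 κ y (-x) b l else 0) else 0) = D2 κ y (-x) := by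
    unfold D2
    rw [sum_comm]
    refine sum_congr rfl fun b _ => sum_congr rfl fun l _ => ?_
    rw [sum_eq_single b]
    · simp
    · intro r _ hr
      simp [hr.symm]
    · intro h
      exact absurd (mem_univ _) h
  simp only [WW_all κ hx hy, sum_add_distrib]
  rw [e1, e2, e3, e4, e5, e6]
  unfold D1
  ring

/-- the box identity -/
theorem box_eq (κ : ℕ) (x y : ι → ℝ) (hx : Function.Injective x) (hy : Function.Injective y) :
    ((∑ v, ((#(Q1 x y v) - κ).choose 2 + #(NB κ x y v)) +
      ∑ v, ((#(Q1 y (-x) v) - κ).choose 2 + #(NB κ y (-x) v)) +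
      ∑ v, ((#(Q1 (-x) (-y) v) - κ).choose 2 + #(NB κ (-x) (-y) v)) +
      ∑ v, ((#(Q1 (-y) x v) - κ).choose 2 + #(NB κ (-y) x v)) : ℕ) : ℤ) =
    (((Fintype.card ι - κ).choose 3 : ℕ) : ℤ) + D1 κ x y + (D2 κ x y + D2 κ y (-x)) +
        (D3 κ x y + D3 κ y (-x) + D3 κ (-x) (-y) + D3 κ (-y) x) := by
  rcases isEmpty_or_nonempty ι with hE | hN
  · have : Fintype.card ι = 0 := Fintype.card_eq_zero
    rw [this, Nat.zero_sub]
    simp [D1, D2, D3]
  have hnx : Function.Injective (-x) := fun a b h => hx (neg_injective h)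
  have hny : Function.Injective (-y) := fun a b h => hy (neg_injective h)
  have key := box_sum_eq κ x y hx hy (fun l b r t =>
    eqi r b + eqi t r + eqi l t + eqi b l + nc x y l b r t - 1)
  have hW := sum_WW κ hx hy
  unfold WW at hW
  rw [hW] at key
  have s1 := sum_eqi κ x y hx hy
  have s2 := sum_eqi κ y (-x) hy hnx
  have s3 := sum_eqi κ (-x) (-y) hnx hny
  have s4 := sum_eqi κ (-y) x hny hx
  have t1 := sum_nbq κ x y hx hy
  have t2 := sum_nbq κ y (-x) hy hnx
  have t3 := sum_nbq κ (-x) (-y) hnx hny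
  have t4 := sum_nbq κ (-y) x hny hx
  simp only [neg_neg] at s3 s4 t3 t4
  have hall := lam_all (ι := ι) κ
  have hsplit : ∑ R : Finset ι with R.Nonempty, om κ (#R) =
      (((Fintype.card ι - κ).choose 3 : ℕ) : ℤ) := by
    rw [← hall, ← Finset.sum_filter_add_sum_filter_not Finset.univ
      (fun R : Finset ι => R.Nonempty)]
    have : ∑ R : Finset ι with ¬ R.Nonempty, om κ (#R) = 0 := by
      apply Finset.sum_eq_zero
      intro R hR
      have h0 : ¬ R.Nonempty := (Finset.mem_filter.mp hR).2
      rw [Finset.not_nonempty_iff_eq_empty] at h0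
      rw [h0, Finset.card_empty]
      exact om_zero κ
    rw [this, add_zero]
  simp only [nc, mul_sub, mul_add, mul_one, Finset.sum_add_distrib, Finset.sum_sub_distrib] at key
  rw [s1, s2, s3, s4, t1, t2, t3, t4, hsplit] at key
  push_cast
  simp only [Finset.sum_add_distrib]
  linarith

end Pool.Agent.AKS
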