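import Pool.Agent.AKS.HalfE

set_option autoImplicit false

/-!
# The exact surplus of one frame

For every frame and every level `κ` the number of acute corners is
`3 C(n - κ, 3) + n (n - 1) κ` minus the brackets minus the surplus `DD` of the frame.
-/

namespace Pool.Agent.AKS

open Finset Classical Pool.Agent.AK

variable {ι : Type*} [Fintype ι]

omit [Fintype ι] in
/-- every box has a non-acute corner -/
theorem one_le_nc {x y : ι → ℝ} (hx : Function.Injective x) (hy : Function.Injective y)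
    {l b r t : ι} (h : B4 x y l b r t) : 1 ≤ nc x y l b r t := by
  have hne : Nonempty ι := ⟨l⟩
  have hnx : Function.Injective (-x) := fun a b h => hx (neg_injective h)
  have hny : Function.Injective (-y) := fun a b h => hy (neg_injective h)
  obtain ⟨p1, p2, p3, p4, p5, p6, p7, p8⟩ := h
  have key := quad x y hx hy {l, b, r, t} ⟨l, by simp⟩
  have m1 : mn x {l, b, r, t} = l := by
    refine mn_eq hx (by simp) ?_
    intro q hq hne
    simp only [mem_insert, mem_singleton] at hq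
    rcases hq with rfl | rfl | rfl | rfl
    · exact absurd rfl hne
    · exact p1
    · exact p1.trans p3
    · exact p2
  have m2 : mn y {l, b, r, t} = b := by
    refine mn_eq hy (by simp) ?_
    intro q hq hne
    simp only [mem_insert, mem_singleton] at hq
    rcases hq with rfl | rfl | rfl | rfl
    · exact p5
    · exact absurd rfl hne
    · exact p6
    · exact p5.trans p7
  have m3 : mn (-x) {l, b, r, t} = r := by
    refine mn_eq hnx (by simp) ?_
    intro q hq hne
    simp only [mem_insert, mem_singleton] at hq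
    simp only [Pi.neg_apply, neg_lt_neg_iff]
    rcases hq with rfl | rfl | rfl | rfl
    · exact p1.trans p3
    · exact p3
    · exact absurd rfl hne
    · exact p4
  have m4 : mn (-y) {l, b, r, t} = t := by
    refine mn_eq hny (by simp) ?_
    intro q hq hne
    simp only [mem_insert, mem_singleton] at hq
    simp only [Pi.neg_apply, neg_lt_neg_iff]
    rcases hq with rfl | rfl | rfl | rfl
    · exact p7
    · exact p5.trans p7
    · exact p8
    · exact absurd rfl hne
  rw [m1, m2, m3, m4] at key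
  have e1 : r ≠ b := by
    rintro rfl
    exact lt_irrefl _ p3
  have e2 : t ≠ r := by
    rintro rfl
    exact lt_irrefl _ p4
  have e3 : l ≠ t := by
    rintro rfl
    exact lt_irrefl _ p2
  have e4 : b ≠ l := by
    rintro rfl
    exact lt_irrefl _ p1
  rw [eqi_ne e1, eqi_ne e2, eqi_ne e3, eqi_ne e4] at key
  unfold nc
  linarith

theorem U4_nonneg (κ : ℕ) {x y : ι → ℝ} (hx : Function.Injective x) (hy : Function.Injective y)
    (l b r t : ι) : 0 ≤ U4 κ x y l b r t := by
  unfold U4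
  split_ifs with h
  · linarith [one_le_nc hx hy h.1]
  · exact le_rfl

theorem U3_nonneg (κ : ℕ) (x y : ι → ℝ) (l c t : ι) : 0 ≤ U3 κ x y l c t := by
  unfold U3
  split_ifs <;> norm_num

theorem U2_nonneg (κ : ℕ) (x y : ι → ℝ) (p q : ι) : 0 ≤ U2 κ x y p q := by
  unfold U2
  split_ifs
  · exact Int.natCast_nonneg _
  · exact le_rfl

theorem D1_nonneg (κ : ℕ) {x y : ι → ℝ} (hx : Function.Injective x) (hy : Function.Injective y) :
    0 ≤ D1 κ x y :=
  sum_nonneg fun l _ => sum_nonneg fun b _ => sum_nonneg fun r _ => sum_nonneg fun t _ =>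
    U4_nonneg κ hx hy l b r t

theorem D2_nonneg (κ : ℕ) (x y : ι → ℝ) : 0 ≤ D2 κ x y :=
  sum_nonneg fun p _ => sum_nonneg fun q _ => U2_nonneg κ x y p q

theorem D3_nonneg (κ : ℕ) (x y : ι → ℝ) : 0 ≤ D3 κ x y :=
  sum_nonneg fun l _ => sum_nonneg fun c _ => sum_nonneg fun t _ => U3_nonneg κ x y l c t

/-- a set of pairs gives a lower bound for `D2` -/
theorem D2_ge (κ : ℕ) (x y : ι → ℝ) (P : Finset (ι × ι))
    (hP : ∀ pq ∈ P, x pq.1 < x pq.2 ∧ y pq.1 < y pq.2) :
    ((∑ pq ∈ P, (#(In x y pq.1 pq.1 pq.2 pq.2) - κ) : ℕ) : ℤ) ≤ D2 κ x y := by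
  have h1 : D2 κ x y = ∑ pq : ι × ι, U2 κ x y pq.1 pq.2 := by
    rw [Fintype.sum_prod_type]
    rfl
  rw [h1]
  push_cast
  calc ∑ pq ∈ P, ((#(In x y pq.1 pq.1 pq.2 pq.2) - κ : ℕ) : ℤ)
      = ∑ pq ∈ P, U2 κ x y pq.1 pq.2 := by
        refine sum_congr rfl fun pq hpq => ?_
        unfold U2
        rw [if_pos (hP pq hpq)]
    _ ≤ _ := sum_le_sum_of_subset_of_nonneg (subset_univ _) fun pq _ _ => U2_nonneg κ x y _ _

/-- a set of triples gives a lower bound for `D3` -/
theorem D3_ge (κ : ℕ) (x y : ι → ℝ) (P : Finset (ι × ι × ι))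
    (hP : ∀ p ∈ P, B3 x y p.1 p.2.1 p.2.2 ∧ κ ≤ #(In x y p.1 p.2.1 p.2.1 p.2.2) ∧
      (dt x y p.2.2 p.1 p.2.1 ≤ 0 ∨ dt x y p.1 p.2.1 p.2.2 ≤ 0)) :
    (#P : ℤ) ≤ D3 κ x y := by
  have h1 : D3 κ x y = ∑ p : ι × ι × ι, U3 κ x y p.1 p.2.1 p.2.2 := by
    rw [Fintype.sum_prod_type]
    unfold D3
    refine sum_congr rfl fun l _ => ?_
    rw [Fintype.sum_prod_type]
  rw [h1]
  calc (#P : ℤ) = ∑ p ∈ P, U3 κ x y p.1 p.2.1 p.2.2 := by
        rw [card_eq_sum_ones]
        push_cast
        refine sum_congr rfl fun p hp => ?_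
        unfold U3
        rw [if_pos (hP p hp)]
    _ ≤ _ := sum_le_sum_of_subset_of_nonneg (subset_univ _) fun p _ _ => U3_nonneg κ x y _ _ _

/-- a set of boxes with two non-acute corners gives a lower bound for `D1` -/
theorem D1_ge (κ : ℕ) {x y : ι → ℝ} (hx : Function.Injective x) (hy : Function.Injective y)
    (P : Finset (ι × ι × ι × ι))
    (hP : ∀ p ∈ P, B4 x y p.1 p.2.1 p.2.2.1 p.2.2.2 ∧
      #(In x y p.1 p.2.1 p.2.2.1 p.2.2.2) + 1 = κ ∧ 2 ≤ nc x y p.1 p.2.1 p.2.2.1 p.2.2.2) :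
    (#P : ℤ) ≤ D1 κ x y := by
  have h1 : D1 κ x y = ∑ p : ι × ι × ι × ι, U4 κ x y p.1 p.2.1 p.2.2.1 p.2.2.2 := by
    rw [Fintype.sum_prod_type]
    unfold D1
    refine sum_congr rfl fun l _ => ?_
    rw [Fintype.sum_prod_type]
    refine sum_congr rfl fun b _ => ?_
    rw [Fintype.sum_prod_type]
  rw [h1]
  calc (#P : ℤ) ≤ ∑ p ∈ P, U4 κ x y p.1 p.2.1 p.2.2.1 p.2.2.2 := by
        rw [card_eq_sum_ones]
        push_cast
        refine sum_le_sum fun p hp => ?_
        obtain ⟨h2, h3, h4⟩ := hP p hp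
        unfold U4
        rw [if_pos ⟨h2, h3⟩]
        linarith
    _ ≤ _ := sum_le_sum_of_subset_of_nonneg (subset_univ _) fun p _ _ => U4_nonneg κ hx hy _ _ _ _

/-- the surplus of the frame -/
noncomputable def DD (κ : ℕ) (x y : ι → ℝ) : ℤ :=
  D1 κ x y + (D2 κ x y + D2 κ y (-x)) +
    (D3 κ x y + D3 κ y (-x) + D3 κ (-x) (-y) + D3 κ (-y) x) +
    ∑ v, (HS κ x y v + HS κ y (-x) v + HS κ (-x) (-y) v + HS κ (-y) x v)

private theorem main_split' (x y : ι → ℝ) (hx : Function.Injective x) (hy : Function.Injective y)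
    (v : ι) (F : ι → ℕ) (hF : F v = 0) :
    ∑ p, F p = ∑ p ∈ Q0 x y v, F p + ∑ p ∈ Q0 y (-x) v, F p + ∑ p ∈ Q0 (-x) (-y) v, F p +
      ∑ p ∈ Q0 (-y) x v, F p := by
  have key : ∀ p, F p = (if x v < x p ∧ y v < y p then F p else 0) +
      (if y v < y p ∧ (-x) v < (-x) p then F p else 0) +
      (if (-x) v < (-x) p ∧ (-y) v < (-y) p then F p else 0) +
      (if (-y) v < (-y) p ∧ x v < x p then F p else 0) := by
    intro p
    by_cases hp : p = v
    · subst hp
      simp [hF]
    · have h1 : x p ≠ x v := fun h => hp (hx h)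
      have h2 : y p ≠ y v := fun h => hp (hy h)
      simp only [Pi.neg_apply, neg_lt_neg_iff]
      rcases lt_or_gt_of_ne h1 with h1 | h1 <;> rcases lt_or_gt_of_ne h2 with h2 | h2 <;>
        simp [h1, h2, not_lt.2 h1.le, not_lt.2 h2.le]
  rw [sum_congr rfl (fun p _ => key p)]
  simp only [sum_add_distrib, Q0, sum_filter]

/-- the surplus identity -/
theorem surplus (κ : ℕ) (x y : ι → ℝ) (hx : Function.Injective x) (hy : Function.Injective y)
    (hg : ∀ v p q : ι, v ≠ p → p ≠ q → v ≠ q → cr x y v p q ≠ 0) :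
    ((∑ v, ∑ p, (al x y v p - κ) : ℕ) : ℤ) + DD κ x y =
      3 * (((Fintype.card ι - κ).choose 3 : ℕ) : ℤ) := by
  have hx' : Function.Injective (-x) := fun a b h => hx (by simpa using h)
  have hy' : Function.Injective (-y) := fun a b h => hy (by simpa using h)
  have c1 : cr y (-x) = cr x y := cr_rot x y
  have c2 : cr (-x) (-y) = cr x y := (cr_rot y (-x)).trans c1
  have c3 : cr (-y) x = cr x y := by
    have := cr_rot (-x) (-y)
    rw [neg_neg] at this
    exact this.trans c2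
  have a1 : al y (-x) = al x y := al_rot x y
  have a2 : al (-x) (-y) = al x y := (al_rot y (-x)).trans a1
  have a3 : al (-y) x = al x y := by
    have := al_rot (-x) (-y)
    rw [neg_neg] at this
    exact this.trans a2
  have h0 := fun v => half_eq κ x y hx hy hg v
  have h1 := fun v => half_eq κ y (-x) hy hx' (by rw [c1]; exact hg) v
  have h2 := fun v => half_eq κ (-x) (-y) hx' hy' (by rw [c2]; exact hg) v
  have h3 := fun v => half_eq κ (-y) x hy' hx (by rw [c3]; exact hg) v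
  rw [a1] at h1
  rw [a2] at h2
  rw [a3] at h3
  have hb := box_eq κ x y hx hy
  have s0 := sum_congr rfl (fun v (_ : v ∈ (univ : Finset ι)) => h0 v)
  have s1 := sum_congr rfl (fun v (_ : v ∈ (univ : Finset ι)) => h1 v)
  have s2 := sum_congr rfl (fun v (_ : v ∈ (univ : Finset ι)) => h2 v)
  have s3 := sum_congr rfl (fun v (_ : v ∈ (univ : Finset ι)) => h3 v)
  rw [sum_up κ y hy] at s0
  rw [sum_up κ (-x) hx'] at s1
  rw [sum_up κ (-y) hy'] at s2
  rw [sum_up κ x hx] at s3
  have hsp : ∑ v, ∑ p, (al x y v p - κ) =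
      ∑ v, ∑ p ∈ Q0 x y v, (al x y v p - κ) + ∑ v, ∑ p ∈ Q0 y (-x) v, (al x y v p - κ) +
      ∑ v, ∑ p ∈ Q0 (-x) (-y) v, (al x y v p - κ) +
      ∑ v, ∑ p ∈ Q0 (-y) x v, (al x y v p - κ) := by
    rw [← sum_add_distrib, ← sum_add_distrib, ← sum_add_distrib]
    refine sum_congr rfl (fun v _ => ?_)
    refine main_split' x y hx hy v (fun p => al x y v p - κ) ?_
    simp [al_self]
  simp only [sum_add_distrib] at s0 s1 s2 s3
  simp only [sum_add_distrib, Nat.cast_add] at hb
  unfold DD HS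
  simp only [sum_add_distrib, sum_sub_distrib]
  rw [hsp]
  push_cast at hb ⊢
  zify at s0 s1 s2 s3
  linarith

/-- the acute corners and the surplus -/
theorem acute_eq (κ : ℕ) (x y : ι → ℝ) (hx : Function.Injective x) (hy : Function.Injective y)
    (hg : ∀ v p q : ι, v ≠ p → p ≠ q → v ≠ q → cr x y v p q ≠ 0) :
    (#(TA x y) : ℤ) + ∑ v, (br κ x y v : ℤ) + DD κ x y =
      3 * (((Fintype.card ι - κ).choose 3 : ℕ) : ℤ) +
        (Fintype.card ι : ℤ) * ((Fintype.card ι : ℤ) - 1) * κ := by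
  unfold br
  push_cast
  have h1 := surplus κ x y hx hy hg
  have h2 : (#(TA x y) : ℤ) + ∑ v, ∑ p ∈ univ.erase v, ((κ - al x y v p : ℕ) : ℤ) =
      ∑ v, ∑ p, ((al x y v p - κ : ℕ) : ℤ) +
        (Fintype.card ι : ℤ) * ((Fintype.card ι : ℤ) - 1) * κ := by
    have h3 : ∀ v : ι, ∑ p, (al x y v p : ℤ) + ∑ p ∈ univ.erase v, ((κ - al x y v p : ℕ) : ℤ) =
        ∑ p, ((al x y v p - κ : ℕ) : ℤ) + ((Fintype.card ι : ℤ) - 1) * κ := by
      intro v
      have h4 : 1 ≤ Fintype.card ι := Fintype.card_pos_iff.2 ⟨v⟩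
      have h5 : ((Fintype.card ι : ℤ) - 1) * κ = ∑ p ∈ univ.erase v, (κ : ℤ) := by
        rw [sum_const, card_erase_of_mem (mem_univ v), card_univ, nsmul_eq_mul, Nat.cast_sub h4]
        push_cast
        ring
      rw [h5, ← add_sum_erase univ (fun p => (al x y v p : ℤ)) (mem_univ v),
        ← add_sum_erase univ (fun p => ((al x y v p - κ : ℕ) : ℤ)) (mem_univ v), al_self,
        add_assoc, add_assoc, ← sum_add_distrib, ← sum_add_distrib]
      congr 1
      · simp
      · refine sum_congr rfl fun p _ => ?_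
        omega
    rw [card_TA]
    push_cast
    rw [← sum_add_distrib, sum_congr rfl fun v _ => h3 v, sum_add_distrib]
    congr 1
    rw [sum_const, card_univ, nsmul_eq_mul]
    ring
  push_cast at h1
  linarith

end Pool.Agent.AKS
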